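import Pool.Agent.Helper83.T5C.StB
import Pool.Agent.Helper14.CV.StB

/-!
# Levels `5·p^n`, `W_5 = +1`: tools for the base levels
-/

set_option autoImplicit false

namespace Pool.Agent.Helper85.T5C

open Pool.Agent.Helper14.CV (Homog EqC act Tl StFar StFex)
open Pool.Agent.Helper28.WK (Tw evw)
open Pool.Agent.Helper28.TH (OkH)
open Pool.Agent.Helper28.T5
open Pool.Agent.Helper83.T5C

/-- Equal values at the ends of all paths `{g∞, g0}` and `{g0, g(-1/2)}`, `g` in `Γ₀(5)`, suffice. -/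
theorem far5 (hfar : StFar) {R : Type} [AddCommGroup R] (F : ℤ → ℤ → R) (hom : Homog F)
    (h : ∀ p q r s : ℤ, p * s - q * r = 1 → (5 : ℤ) ∣ r → F p r = F q s)
    (h2 : ∀ p q r s : ℤ, p * s - q * r = 1 → (5 : ℤ) ∣ r → F q s = F (2 * q - p) (2 * s - r)) :
    EqC F 0 := by
  have C : ∀ p q r s : ℤ, p * s - q * r = 1 → (5 : ℤ) ∣ r - s → F p r = F q s := by
    intro p q r s hd hr
    have e1 := h (p - q) q (r - s) s (by linear_combination hd) hr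
    have e2 := h (p - q) p (r - s) r (by linear_combination hd) hr
    rw [← e2, e1]
  have D : ∀ p q r s : ℤ, p * s - q * r = 1 → (5 : ℤ) ∣ 2 * r - s → F p r = F q s := by
    intro p q r s hd hr
    have e1 := h2 (2 * p - q) p (2 * r - s) r (by linear_combination hd) hr
    rw [e1]
    congr 1 <;> ring
  refine hfar R _ F hom fun p q r s hd => ?_
  have hne : p ≠ 0 ∨ r ≠ 0 := by
    by_contra hcon
    push Not at hcon
    rw [hcon.1, hcon.2] at hd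
    simp at hd
  have hng : F (-p) (-r) = F p r := by
    have := hom (-1) p r (by norm_num) hne
    rwa [neg_one_mul, neg_one_mul] at this
  have hcase : (5 : ℤ) ∣ r ∨ (5 : ℤ) ∣ s ∨ (5 : ℤ) ∣ r - s ∨ (5 : ℤ) ∣ r + s ∨ (5 : ℤ) ∣ 2 * r - s ∨
      (5 : ℤ) ∣ r - 2 * s := by
    rcases (by omega : r % 5 = 0 ∨ r % 5 = 1 ∨ r % 5 = 2 ∨ r % 5 = 3 ∨ r % 5 = 4) with h1 | h1 | h1 | h1 | h1 <;>
    rcases (by omega : s % 5 = 0 ∨ s % 5 = 1 ∨ s % 5 = 2 ∨ s % 5 = 3 ∨ s % 5 = 4) with h3 | h3 | h3 | h3 | h3 <;>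
    omega
  rcases hcase with hr | hs | hc | hc | hc | hc
  · exact h p q r s hd hr
  · have := h q (-p) s (-r) (by linear_combination hd) hs
    rw [this, hng]
  · exact C p q r s hd hc
  · have e1 := h (p + q) q (r + s) s (by linear_combination hd) hc
    have e2 := h (p + q) (-p) (r + s) (-r) (by linear_combination hd) hc
    rw [← hng, ← e2, e1]
  · exact D p q r s hd hc
  · have e1 := D (p - q) p (r - s) r (by linear_combination hd) (by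
      have e : 2 * (r - s) - r = r - 2 * s := by ring
      rwa [e])
    have e2 := C (p - q) q (r - s) s (by linear_combination hd) (by
      have e : r - s - s = r - 2 * s := by ring
      rwa [e])
    rw [← e1, e2]

/-- The symmetries of a potential: matrices of the type `HTy` with `e1 ∣ b`, `e2 ∣ c`; the reflection and the involution `(x, y) ↦ (-y, e3 x)`. -/
structure Inv (e1 e2 e3 : ℤ) (F : ℤ → ℤ → ℂ) : Prop where
  hom : Homog F
  gam : ∀ a b c d : ℤ, HTy a (e1 * b) (e2 * c) d → ∀ x y z w : ℤ, (x ≠ 0 ∨ y ≠ 0) →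
    (z ≠ 0 ∨ w ≠ 0) → F (a * x + e1 * b * y) (e2 * c * x + d * y) -
      F (a * z + e1 * b * w) (e2 * c * z + d * w) = F x y - F z w
  st : ∀ x y : ℤ, (x ≠ 0 ∨ y ≠ 0) → F (-x) y = F x y
  sw : ∀ x y z w : ℤ, (x ≠ 0 ∨ y ≠ 0) → (z ≠ 0 ∨ w ≠ 0) →
    F (-y) (e3 * x) - F (-w) (e3 * z) = -(F x y - F z w)

theorem ev {e1 e2 e3 : ℤ} {F : ℤ → ℤ → ℂ} (h : Inv e1 e2 e3 F) {x y k P Q : ℤ}
    (hn : P ≠ 0 ∨ Q ≠ 0) (hk : k ≠ 0) (hx : x = k * P ∨ x = -(k * P)) (hy : y = k * Q) :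
    F x y = F P Q := by
  subst hy
  rcases hx with rfl | rfl
  · exact h.hom k P Q hk hn
  · have e : -(k * P) = k * (-P) := by ring
    rw [e, h.hom k (-P) Q hk (by rcases hn with h | h; exacts [Or.inl (neg_ne_zero.2 h), Or.inr h]),
      h.st P Q hn]

/-- A value at a multiple of a cusp or of its reflection. -/
theorem cl {e1 e2 e3 : ℤ} {F : ℤ → ℤ → ℂ} (h : Inv e1 e2 e3 F) (κ : ℂ) (P Q : ℤ)
    (hP : F P Q = κ) (k x y : ℤ)
    (hn : (P ≠ 0 ∨ Q ≠ 0) ∧ k ≠ 0 ∧ (x = k * P ∨ x = -(k * P)) ∧ y = k * Q) : F x y = κ :=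
  (ev h hn.1 hn.2.1 hn.2.2.1 hn.2.2.2).trans hP

theorem g0 {e1 e2 e3 : ℤ} {F : ℤ → ℤ → ℂ} (h : Inv e1 e2 e3 F)
    (a b c d x y z w X Z P Q P' Q' k k' : ℤ) (hT : HTy a (e1 * b) (e2 * c) d)
    (hn : ((X ≠ 0 ∨ y ≠ 0) ∧ (Z ≠ 0 ∨ w ≠ 0) ∧ (P ≠ 0 ∨ Q ≠ 0) ∧ (P' ≠ 0 ∨ Q' ≠ 0) ∧ k ≠ 0 ∧ k' ≠ 0 ∧
      (x ≠ 0 ∨ y ≠ 0) ∧ (z ≠ 0 ∨ w ≠ 0)) ∧ (x = 1 * X ∨ x = -(1 * X)) ∧ (z = 1 * Z ∨ z = -(1 * Z)) ∧
      (a * x + e1 * b * y = k * P ∨ a * x + e1 * b * y = -(k * P)) ∧ e2 * c * x + d * y = k * Q ∧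
      (a * z + e1 * b * w = k' * P' ∨ a * z + e1 * b * w = -(k' * P')) ∧
      e2 * c * z + d * w = k' * Q') :
    F P Q - F P' Q' = F X y - F Z w := by
  obtain ⟨⟨n1, n2, n3, n4, n5, n6, n7, n8⟩, c1, c2, c3, c4, c5, c6⟩ := hn
  have e := h.gam a b c d hT x y z w n7 n8
  rw [ev h n3 n5 c3 c4, ev h n4 n6 c5 c6,
    ev h (y := y) n1 one_ne_zero c1 (one_mul y).symm,
    ev h (y := w) n2 one_ne_zero c2 (one_mul w).symm] at e
  exact e

theorem g1 {e1 e2 e3 : ℤ} {F : ℤ → ℤ → ℂ} (h : Inv e1 e2 e3 F)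
    (a b c d x y z w X Z P Q P' Q' k k' : ℤ) (hT : HTy a (e1 * b) (e2 * c) d)
    (hn : ((X ≠ 0 ∨ y ≠ 0) ∧ (Z ≠ 0 ∨ w ≠ 0) ∧ (P ≠ 0 ∨ Q ≠ 0) ∧ (P' ≠ 0 ∨ Q' ≠ 0) ∧ k ≠ 0 ∧ k' ≠ 0 ∧
      (x ≠ 0 ∨ y ≠ 0) ∧ (z ≠ 0 ∨ w ≠ 0) ∧ (-y ≠ 0 ∨ e3 * x ≠ 0) ∧ (-w ≠ 0 ∨ e3 * z ≠ 0)) ∧
      (x = 1 * X ∨ x = -(1 * X)) ∧ (z = 1 * Z ∨ z = -(1 * Z)) ∧
      (a * (-y) + e1 * b * (e3 * x) = k * P ∨ a * (-y) + e1 * b * (e3 * x) = -(k * P)) ∧
      e2 * c * (-y) + d * (e3 * x) = k * Q ∧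
      (a * (-w) + e1 * b * (e3 * z) = k' * P' ∨ a * (-w) + e1 * b * (e3 * z) = -(k' * P')) ∧
      e2 * c * (-w) + d * (e3 * z) = k' * Q') :
    F P Q - F P' Q' = -(F X y - F Z w) := by
  obtain ⟨⟨n1, n2, n3, n4, n5, n6, n7, n8, n9, n10⟩, c1, c2, c3, c4, c5, c6⟩ := hn
  have e := h.gam a b c d hT (-y) (e3 * x) (-w) (e3 * z) n9 n10
  have e2 := h.sw x y z w n7 n8
  rw [ev h n3 n5 c3 c4, ev h n4 n6 c5 c6] at e
  rw [e2, ev h (y := y) n1 one_ne_zero c1 (one_mul y).symm,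
    ev h (y := w) n2 one_ne_zero c2 (one_mul w).symm] at e
  exact e

private theorem nz {a b c d e x y : ℤ} (h : a * d - b * c = e) (he : e ≠ 0) (hv : x ≠ 0 ∨ y ≠ 0) :
    a * x + b * y ≠ 0 ∨ c * x + d * y ≠ 0 := by
  by_contra hcon
  push Not at hcon
  obtain ⟨h1, h2⟩ := hcon
  have hx : e * x = 0 := by rw [← h]; linear_combination d * h1 - b * h2
  have hy : e * y = 0 := by rw [← h]; linear_combination a * h2 - c * h1
  rcases hv with hv | hv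
  · exact hv ((mul_eq_zero.1 hx).resolve_left he)
  · exact hv ((mul_eq_zero.1 hy).resolve_left he)

/-- Reduction to a representative. -/
theorem two {e1 e2 e3 : ℤ} {F : ℤ → ℤ → ℂ} (h : Inv e1 e2 e3 F) {r1 r2 r3 r4 : ℤ}
    (hr : HTy r1 r2 r3 r4) {p q r s : ℤ} (hd : p * s - q * r = 1) (hpar : (5 : ℤ) ∣ r)
    (d1 : e1 ∣ q * r1 - p * r2) (d2 : e2 ∣ r * r4 - s * r3) (x y z w : ℤ) (hv : x ≠ 0 ∨ y ≠ 0)
    (hw : z ≠ 0 ∨ w ≠ 0) : F (p * x + q * y) (r * x + s * y) - F (p * z + q * w) (r * z + s * w) =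
      F (r1 * x + r2 * y) (r3 * x + r4 * y) - F (r1 * z + r2 * w) (r3 * z + r4 * w) := by
  obtain ⟨b, hb⟩ := d1
  obtain ⟨c, hc⟩ := d2
  have n1 := nz hd one_ne_zero hv
  have n2 := nz hd one_ne_zero hw
  have n3 := nz rfl hr.det_ne hv
  have n4 := nz rfl hr.det_ne hw
  have hprod : e1 * b * (e2 * c) = (q * r1 - p * r2) * (r * r4 - s * r3) := by rw [hb, hc]
  rcases hr with ⟨hr, hr3⟩ | ⟨hr, hr1, hr3, hr4⟩
  · have hT : HTy (p * r4 - q * r3) (e1 * b) (e2 * c) (s * r1 - r * r2) := by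
      refine Or.inl ⟨?_, ?_⟩
      · rw [hprod]
        linear_combination (p * s - q * r) * hr + hd
      · rw [← hc]
        exact dvd_sub (Dvd.dvd.mul_right hpar _) (Dvd.dvd.mul_left hr3 _)
    have e := h.gam _ b c _ hT _ _ _ _ n3 n4
    rw [← e, ← hb, ← hc]
    congr 2
    · linear_combination (-(p * x + q * y)) * hr
    · linear_combination (-(r * x + s * y)) * hr
    · linear_combination (-(p * z + q * w)) * hr
    · linear_combination (-(r * z + s * w)) * hr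
  · have hT : HTy (p * r4 - q * r3) (e1 * b) (e2 * c) (s * r1 - r * r2) := by
      refine Or.inr ⟨?_, ?_, ?_, ?_⟩
      · rw [hprod]
        linear_combination (p * s - q * r) * hr + 5 * hd
      · exact dvd_sub (Dvd.dvd.mul_left hr4 _) (Dvd.dvd.mul_left hr3 _)
      · rw [← hc]
        exact dvd_sub (Dvd.dvd.mul_right hpar _) (Dvd.dvd.mul_left hr3 _)
      · exact dvd_sub (Dvd.dvd.mul_left hr1 _) (Dvd.dvd.mul_right hpar _)
    have e := h.gam _ b c _ hT _ _ _ _ n3 n4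
    rw [← e, ← hb, ← hc, ← h.hom 5 (p * x + q * y) (r * x + s * y) (by norm_num) n1,
      ← h.hom 5 (p * z + q * w) (r * z + s * w) (by norm_num) n2]
    congr 2
    · linear_combination (-(p * x + q * y)) * hr
    · linear_combination (-(r * x + s * y)) * hr
    · linear_combination (-(p * z + q * w)) * hr
    · linear_combination (-(r * z + s * w)) * hr

/-- The potential is constant if all classes have representatives of both kinds. -/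
theorem fin5 (hfar : StFar) {e1 e2 e3 : ℤ} {F : ℤ → ℤ → ℂ} (h : Inv e1 e2 e3 F) (κ : ℂ)
    (hA : ∀ p q r s : ℤ, p * s - q * r = 1 → (5 : ℤ) ∣ r → ∃ r1 r2 r3 r4 : ℤ, HTy r1 r2 r3 r4 ∧
      e1 ∣ q * r1 - p * r2 ∧ e2 ∣ r * r4 - s * r3 ∧ F r1 r3 = κ ∧ F r2 r4 = κ)
    (hB : ∀ p q r s : ℤ, p * s - q * r = 1 → (5 : ℤ) ∣ r → ∃ r1 r2 r3 r4 : ℤ, HTy r1 r2 r3 r4 ∧
      e1 ∣ q * r1 - p * r2 ∧ e2 ∣ r * r4 - s * r3 ∧ F r2 r4 = κ ∧
      F (2 * r2 - r1) (2 * r4 - r3) = κ) : EqC F 0 := by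
  refine far5 hfar F h.hom (fun p q r s hd hr => ?_) (fun p q r s hd hr => ?_)
  · obtain ⟨r1, r2, r3, r4, hT, d1, d2, k1, k2⟩ := hA p q r s hd hr
    have e := two h hT hd hr d1 d2 1 0 0 1 (Or.inl one_ne_zero) (Or.inr one_ne_zero)
    simp only [mul_one, mul_zero, add_zero, zero_add] at e
    rw [k1, k2, sub_self] at e
    exact sub_eq_zero.1 e
  · obtain ⟨r1, r2, r3, r4, hT, d1, d2, k1, k2⟩ := hB p q r s hd hr
    have e := two h hT hd hr d1 d2 0 1 (-1) 2 (Or.inr one_ne_zero) (Or.inr two_ne_zero)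
    simp only [mul_one, mul_zero, zero_add] at e
    have f1 : r1 * -1 + r2 * 2 = 2 * r2 - r1 := by ring
    have f2 : r3 * -1 + r4 * 2 = 2 * r4 - r3 := by ring
    have f3 : p * -1 + q * 2 = 2 * q - p := by ring
    have f4 : r * -1 + s * 2 = 2 * s - r := by ring
    rw [f1, f2, f3, f4, k1, k2, sub_self] at e
    exact sub_eq_zero.1 e

/-- The symmetries at level `5 p^n` in the original coordinates. -/
theorem inv_of {p n : ℕ} {G : ℤ → ℤ → ℂ} (hS : SymH p 0 n G)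
    (hW : EqC (act 0 (-1) (5 * (p : ℤ) ^ n) 0 G) (-G)) (hst : EqC (act (-1) 0 0 1 G) G) :
    Inv 1 ((p : ℤ) ^ n) (5 * (p : ℤ) ^ n) G := by
  obtain ⟨hH, hG⟩ := hS
  have st : ∀ x y : ℤ, (x ≠ 0 ∨ y ≠ 0) → G (-x) y = G x y := by
    intro x y hv
    have e := hst.diff (p := x) (q := y) (p' := 1) (q' := 0) hv (Or.inl one_ne_zero)
    have e0 := hH (-1) 1 0 (by norm_num) (Or.inl one_ne_zero)
    simp only [act, mul_zero, mul_one, add_zero, zero_mul, one_mul, zero_add] at e e0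
    rw [e0, neg_one_mul] at e
    exact sub_left_injective e
  refine ⟨hH, ?_, st, ?_⟩
  · intro a b c d hd x y z w hv hw
    have e := (hG a (1 * b) ((p : ℤ) ^ n * c) d hd (by simp) (Dvd.intro _ rfl)).diff hv hw
    exact e
  · intro x y z w hv hw
    have e := hW.diff hv hw
    simp only [act, Pi.neg_apply, zero_mul, zero_add, add_zero, neg_one_mul] at e
    rw [e]
    ring

/-- The symmetries of `F(x, y) = K(x, p y)` at level `5 p^2`. -/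
theorem inv_sq {p : ℕ} (hp : p ≠ 0) {K : ℤ → ℤ → ℂ} (hS : SymH p 0 2 K)
    (hW : EqC (act 0 (-1) (5 * (p : ℤ) ^ 2) 0 K) (-K)) (hst : EqC (act (-1) 0 0 1 K) K) :
    Inv p p 5 (fun x y => K x (p * y)) := by
  have hI := inv_of hS hW hst
  have hpz : (p : ℤ) ≠ 0 := by exact_mod_cast hp
  have sc : ∀ x y : ℤ, (x ≠ 0 ∨ y ≠ 0) → (x ≠ 0 ∨ (p : ℤ) * y ≠ 0) := by
    intro x y hv
    rcases hv with hv | hv
    · exact Or.inl hv
    · exact Or.inr (mul_ne_zero hpz hv)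
  refine ⟨?_, ?_, fun x y hv => hI.st x _ (sc x y hv), ?_⟩
  · intro k x y hk hv
    have := hI.hom k x (p * y) hk (sc x y hv)
    simp only
    rw [← this]
    congr 1; ring
  · intro a b c d hd x y z w hv hw
    have hT : HTy a (1 * b) ((p : ℤ) ^ 2 * c) d := by
      have hp5 : ∀ t : ℤ, (5 : ℤ) ∣ p * t → (5 : ℤ) ∣ (p : ℤ) ^ 2 * t := by
        rintro t ⟨k, hk⟩
        exact ⟨p * k, by rw [pow_two, mul_assoc, hk]; ring⟩
      rcases hd with ⟨h1, h2⟩ | ⟨h1, h2, h3, h4⟩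
      · exact Or.inl ⟨by linear_combination h1, hp5 c h2⟩
      · exact Or.inr ⟨by linear_combination h1, h2, hp5 c h3, h4⟩
    have e := hI.gam a b c d hT x (p * y) z (p * w) (sc x y hv) (sc z w hw)
    rw [← e]
    congr 2 <;> ring
  · intro x y z w hv hw
    have e := hI.sw x (p * y) z (p * w) (sc x y hv) (sc z w hw)
    rw [← e]
    have q1 : ∀ x y : ℤ, (x ≠ 0 ∨ y ≠ 0) →
        K (-(p * y)) (5 * (p : ℤ) ^ 2 * x) = K (-y) (p * (5 * x)) := by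
      intro x y hv
      have := hI.hom p (-y) (p * (5 * x)) hpz (by
        rcases hv with hv | hv
        · exact Or.inr (mul_ne_zero hpz (mul_ne_zero (by norm_num) hv))
        · exact Or.inl (neg_ne_zero.2 hv))
      rw [← this]
      congr 1 <;> ring
    rw [q1 x y hv, q1 z w hw]

end Pool.Agent.Helper85.T5C
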