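import Mathlib

/-!
# Pairs of points of the projective line over `ZMod p`
-/

set_option autoImplicit false

namespace Pool.Agent.Helper85.T5C

private theorem tr1 {p : ℕ} [Fact p.Prime] {x y c1 c2 u v : ZMod p} (hc : c1 ≠ 0 ∨ c2 ≠ 0)
    (h : x * c2 - y * c1 = 0) (h' : c2 * u - c1 * v = 0) : y * u - x * v = 0 := by
  rcases hc with hc | hc
  · refine (mul_eq_zero.1 ?_).resolve_left hc
    linear_combination (-u) * h + x * h'
  · refine (mul_eq_zero.1 ?_).resolve_left hc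
    linear_combination y * h' - v * h

/-- Reduction of a statement on matrices of determinant one to pairs of points. -/
theorem cls_of {l : ℕ} [Fact l.Prime] (C : List (ZMod l × ZMod l)) (L : List (ℤ × ℤ × ℤ × ℤ))
    (hC : ∀ x y : ZMod l, (x ≠ 0 ∨ y ≠ 0) → ∃ c ∈ C, x * c.2 - y * c.1 = 0)
    (hC0 : ∀ c ∈ C, c.1 ≠ 0 ∨ c.2 ≠ 0)
    (hL : ∀ c ∈ C, ∀ d ∈ C, c ≠ d → ∃ t ∈ L, c.2 * (t.1 : ZMod l) - c.1 * (t.2.1 : ZMod l) = 0 ∧
      d.2 * (t.2.2.1 : ZMod l) - d.1 * (t.2.2.2 : ZMod l) = 0) :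
    ∀ p q r s : ZMod l, p * s - q * r = 1 → ∃ t ∈ L,
      q * (t.1 : ZMod l) - p * (t.2.1 : ZMod l) = 0 ∧
        r * (t.2.2.2 : ZMod l) - s * (t.2.2.1 : ZMod l) = 0 := by
  intro p q r s hd
  have h1 : p ≠ 0 ∨ q ≠ 0 := by
    by_contra hcon
    push Not at hcon
    rw [hcon.1, hcon.2] at hd
    simp at hd
  have h2 : r ≠ 0 ∨ s ≠ 0 := by
    by_contra hcon
    push Not at hcon
    rw [hcon.1, hcon.2] at hd
    simp at hd
  obtain ⟨c, hc, e1⟩ := hC p q h1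
  obtain ⟨d, hd', e2⟩ := hC r s h2
  have hne : c ≠ d := by
    rintro rfl
    rcases hC0 c hc with h0 | h0
    · apply h0
      linear_combination (-c.1) * hd + (r : ZMod l) * e1 - p * e2
    · apply h0
      linear_combination (-c.2) * hd + s * e1 - q * e2
  obtain ⟨t, ht, k1, k2⟩ := hL c hc d hd' hne
  refine ⟨t, ht, tr1 (hC0 c hc) e1 k1, ?_⟩
  have := tr1 (hC0 d hd') e2 k2
  linear_combination -this

end Pool.Agent.Helper85.T5C
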